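import Pool.Agent.Helper69.UW.Defs
import Pool.Agent.Helper93.UG.Q3

/-!
# UW-Q3: the two measure statements
-/

set_option autoImplicit false
open MeasureTheory Set Filter Topology
open Pool.Agent.Helper57.Zeta Pool.Agent.Helper57.LH Pool.Agent.Helper57.ED Pool.Agent.Helper54.LG
open Pool.Agent.Helper93.UG (zc IsOrd sp shift_vol ZcMeas)
open Pool.Agent.Helper69.UG (pt NX XX NR NM WW near far)
open Pool.Agent.Helper69.UV (ww HH)
open Pool.Agent.Helper69.UW

namespace Pool.Agent.Helper88.UW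

/-- Q0. -/
def ToMeas (δ : ℝ) : Prop := ∃ c0 T0 : ℝ, ∀ T c m v : ℝ, T0 ≤ T → Adm c0 T c m → |v| = vv δ c m →
    ∀ G : Set ℝ, MeasurableSet G →
    (∀ τ, 5 / 4 * T ≤ τ → τ ≤ 7 / 4 * T → ∃ s : ℝ, |s| ≤ √T ∧
      VV δ T c m v / c ≤ ∫ t in {t : ℝ | t + s ∈ G}, wt δ T c m v τ t) →
    ENNReal.ofReal (Real.exp (-((1 + 110 * δ) * K0 c m)) * T) ≤ volume (G ∩ Icc T (2 * T))

/-- Q1. -/
def Few (δ : ℝ) : Prop := ∃ c0 T0 : ℝ, ∀ T c m v : ℝ, T0 ≤ T → Adm c0 T c m → |v| = vv δ c m → 0 < v →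
    ∀ τ, T ≤ τ → τ ≤ 2 * T → ∃ s : ℝ, |s| ≤ √T ∧
      VV δ T c m v / c ≤ ∫ t in {t : ℝ | t + s ∈
        {t : ℝ | (zc (Ico (t - HH T c) (t + HH T c)) : ℝ) ≤ c - √m ∧
          ∃ ρ : ZS, t - HH T c - 16 / XX T c ≤ (ρ : ℂ).im ∧ (ρ : ℂ).im < t - HH T c}}, wt δ T c m v τ t

/-- Q2. -/
def Many (δ : ℝ) : Prop := ∃ c0 T0 : ℝ, ∀ T c m v : ℝ, T0 ≤ T → Adm c0 T c m → |v| = vv δ c m → v < 0 →
    ∀ τ, T ≤ τ → τ ≤ 2 * T → ∃ s : ℝ, |s| ≤ √T ∧
      VV δ T c m v / c ≤ ∫ t in {t : ℝ | t + s ∈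
        {t : ℝ | c + √m ≤ (zc (Ico (t - HH T c) (t + HH T c)) : ℝ)}}, wt δ T c m v τ t

/-- the parameters of a window -/
lemma adm88 {c0 T c V : ℝ} {B : ℝ} (hB : max 3 c0 ≤ B) (hc : B ≤ c) (hV : B * Real.log c ≤ V) (hV2 : B * V ≤ √c)
    (hll : 0 < Real.log (Real.log T)) (hc1 : c ≤ 1 / 64 * (Real.log T / Real.log (Real.log T))) :
    1 ≤ V ∧ Adm c0 T c (V ^ 2) := by
  have hB3 : 3 ≤ B := (le_max_left _ _).trans hB
  have hBc : c0 ≤ B := (le_max_right _ _).trans hB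
  have hc3 : 3 ≤ c := hB3.trans hc
  have hl1 : 1 ≤ Real.log c := by
    have h3 : Real.exp 1 ≤ 3 := by linarith [Real.exp_one_lt_d9]
    have := Real.log_le_log (Real.exp_pos 1) (h3.trans hc3)
    rwa [Real.log_exp] at this
  have hV1 : 1 ≤ V := by nlinarith
  have hB2 : c0 ≤ B ^ 2 := by nlinarith
  refine ⟨hV1, hc3, by nlinarith, ?_, ?_, ?_⟩
  · have h1 : (B * Real.log c) ^ 2 ≤ V ^ 2 := pow_le_pow_left₀ (by positivity) hV 2
    have h2 : c0 * Real.log c ^ 2 ≤ B ^ 2 * Real.log c ^ 2 := mul_le_mul_of_nonneg_right hB2 (sq_nonneg _)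
    linarith [mul_pow B (Real.log c) 2]
  · have h1 : (B * V) ^ 2 ≤ √c ^ 2 := pow_le_pow_left₀ (by positivity) hV2 2
    rw [Real.sq_sqrt (by linarith), mul_pow] at h1
    have h2 : c0 * V ^ 2 ≤ B ^ 2 * V ^ 2 := mul_le_mul_of_nonneg_right hB2 (sq_nonneg _)
    linarith
  · have h1 := mul_le_mul_of_nonneg_right hc1 hll.le
    have e : 1 / 64 * (Real.log T / Real.log (Real.log T)) * Real.log (Real.log T) = Real.log T / 64 := by
      field_simp
    linarith

/-- the numbers. -/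
lemma numbers88 {ε δ : ℝ} (hε : 0 < ε) (hδ0 : 0 < δ) (hδ : 600 * δ ≤ ε) : ∀ᶠ T : ℝ in atTop, ∀ c m : ℝ, Adm 3 T c m →
    HH T c ≤ 1 ∧ Real.exp (-((Real.pi ^ 2 / 2 + ε) * m / ll c m)) * T + 1 ≤ Real.exp (-((1 + 110 * δ) * K0 c m)) * T := by
  have hl := Real.tendsto_log_atTop
  have hll : Tendsto (fun T : ℝ => Real.log (Real.log T)) atTop atTop := hl.comp hl
  filter_upwards [hll.eventually_ge_atTop (5 + ε), eventually_ge_atTop 16, hl.eventually_ge_atTop (24 / ε),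
    hl.eventually_gt_atTop 0] with T h1 hT h2 hL c m hA
  have hT0 : 0 < T := by linarith
  have hpi := Real.pi_lt_d2
  have hpi0 := Real.pi_pos
  obtain ⟨a1, a2, a3, a4, a5⟩ := id hA
  have hc0 : 0 < c := by linarith
  have hm0 : 0 < m := by linarith
  have hmc : m ≤ c := by linarith
  have hlc := hA.one_le_log
  have hl3 : 1 ≤ ll c m := by
    have h3 : Real.exp 1 ≤ 3 := by linarith [Real.exp_one_lt_d9]
    have h4 := Real.log_le_log (Real.exp_pos 1) h3
    rw [Real.log_exp] at h4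
    exact h4.trans (hA.log_le_ll (by norm_num))
  have hl3' : 0 < ll c m := by linarith
  have hllc := hA.ll_le
  -- `64 c (5 + ε) ≤ log T`
  have h6 : 64 * (c * (5 + ε)) ≤ Real.log T := by
    have : c * (5 + ε) ≤ c * Real.log (Real.log T) := mul_le_mul_of_nonneg_left h1 hc0.le
    linarith
  constructor
  · unfold HH
    rw [div_le_one hL]
    nlinarith
  · have hpi2 : Real.pi ^ 2 ≤ 10 := by nlinarith
    set q : ℝ := m / ll c m with hq
    have hq0 : 0 < q := by positivity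
    have hq1 : 1 ≤ q := by
      rw [hq, le_div_iff₀ hl3', one_mul]
      nlinarith
    have hqm : q ≤ m := div_le_self hm0.le hl3
    have e1 : (Real.pi ^ 2 / 2 + ε) * m / ll c m = (Real.pi ^ 2 / 2 + ε) * q := by
      rw [hq]
      ring
    have e2 : (1 + 110 * δ) * K0 c m = (1 + 110 * δ) * (Real.pi ^ 2 / 2) * q := by
      unfold Pool.Agent.Helper69.UW.K0
      rw [hq]
      field_simp
    rw [e1, e2]
    set b : ℝ := (Real.pi ^ 2 / 2 + ε) * q with hb
    set a : ℝ := (1 + 110 * δ) * (Real.pi ^ 2 / 2) * q with ha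
    have hba : ε / 12 ≤ b - a := by
      have h7 : b - a = (ε - 55 * (δ * Real.pi ^ 2)) * q := by
        rw [hb, ha]
        ring
      have h8 : 55 * (δ * Real.pi ^ 2) ≤ 55 / 60 * ε := by
        have : δ * Real.pi ^ 2 ≤ δ * 10 := mul_le_mul_of_nonneg_left hpi2 hδ0.le
        linarith
      have h9 : ε / 12 ≤ ε - 55 * (δ * Real.pi ^ 2) := by linarith
      rw [h7]
      calc ε / 12 = ε / 12 * 1 := (mul_one _).symm
        _ ≤ (ε - 55 * (δ * Real.pi ^ 2)) * q := mul_le_mul h9 hq1 zero_le_one (by linarith)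
    have hb2 : b ≤ Real.log T / 2 := by
      have h10 : b ≤ (5 + ε) * m := by
        rw [hb]
        exact mul_le_mul (by linarith) hqm hq0.le (by linarith)
      have h11 : (5 + ε) * m ≤ (5 + ε) * c := mul_le_mul_of_nonneg_left hmc (by linarith)
      nlinarith
    have e3 : Real.exp (-b) * T = Real.exp (Real.log T - b) := by
      conv_lhs => rw [← Real.exp_log hT0]
      rw [← Real.exp_add]
      congr 1
      ring
    have h12 : 12 / ε ≤ Real.exp (-b) * T := by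
      rw [e3]
      have h13 := Real.add_one_le_exp (Real.log T - b)
      have h15 : 24 / ε = 2 * (12 / ε) := by ring
      linarith
    have h16 : Real.exp (-a) = Real.exp (-b) * Real.exp (b - a) := by
      rw [← Real.exp_add]
      congr 1
      ring
    have h17 := Real.add_one_le_exp (b - a)
    have h18 : Real.exp (-b) * T * (1 + ε / 12) ≤ Real.exp (-b) * T * Real.exp (b - a) :=
      mul_le_mul_of_nonneg_left (by linarith) (by positivity)
    have h19 : 1 ≤ Real.exp (-b) * T * (ε / 12) := by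
      calc (1 : ℝ) = 12 / ε * (ε / 12) := by field_simp
        _ ≤ _ := mul_le_mul_of_nonneg_right h12 (by positivity)
    rw [h16]
    linarith

theorem mp_of (ht : ∀ δ : ℝ, 0 < δ → δ ≤ 1 / 32 → ToMeas δ) (hm : ∀ δ : ℝ, 0 < δ → δ ≤ 1 / 32 → Many δ) (hz : ZcMeas) :
    Mp := by
  intro ε hε
  set δ : ℝ := min (1 / 32) (ε / 600) with hδd
  have hδ : 0 < δ := lt_min (by norm_num) (by positivity)
  have hδ1 : δ ≤ 1 / 32 := min_le_left _ _
  have hδ2 : 600 * δ ≤ ε := by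
    have := min_le_right (1 / 32) (ε / 600)
    rw [← hδd] at this
    linarith
  obtain ⟨c1, T1, ht⟩ := ht δ hδ hδ1
  obtain ⟨c2, T2, hm⟩ := hm δ hδ hδ1
  have hl := Real.tendsto_log_atTop
  have hll : Tendsto (fun T : ℝ => Real.log (Real.log T)) atTop atTop := hl.comp hl
  obtain ⟨T3, hT3⟩ := eventually_atTop.mp ((numbers88 hε hδ hδ2).and ((hl.eventually_gt_atTop 0).and
    ((hll.eventually_gt_atTop 0).and (eventually_ge_atTop 1))))
  set B : ℝ := max 3 (max c1 c2) with hB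
  have hB3 : 3 ≤ B := le_max_left _ _
  refine ⟨B, 1 / 64, max T3 (max T1 T2), by linarith, by norm_num,
    fun T hT c V hc0 hV hV2 hc1 => ?_⟩
  obtain ⟨h1, hL, hLL, hT1⟩ := hT3 T ((le_max_left _ _).trans hT)
  obtain ⟨hV1, hadm⟩ := adm88 (c0 := B) (max_le hB3 le_rfl) hc0 hV hV2 hLL hc1
  have hsq : √(V ^ 2) = V := Real.sqrt_sq (by linarith)
  obtain ⟨h2, h3⟩ := h1 c (V ^ 2) (hadm.mono hB3)
  have hpi := Real.pi_pos
  have hcp : 0 < c := by linarith
  have hvp : 0 < vv δ c (V ^ 2) := vv_pos hδ (hadm.mono hB3) (by norm_num)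
  have hH0 : 0 ≤ HH T c := by unfold HH; positivity
  have hv : |(-vv δ c (V ^ 2))| = vv δ c (V ^ 2) := by rw [abs_neg, abs_of_pos hvp]
  set G : Set ℝ := {t : ℝ | c + √(V ^ 2) ≤ (zc (Ico (t - HH T c) (t + HH T c)) : ℝ)} with hG
  have hGm : MeasurableSet G := measurableSet_le measurable_const (hz _)
  have h4 := ht T c (V ^ 2) _ ((le_max_left _ _).trans ((le_max_right _ _).trans hT))
    (hadm.mono ((le_max_left _ _).trans (le_max_right _ _))) hv G hGm (fun τ hτ1 hτ2 =>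
    hm T c (V ^ 2) _ ((le_max_right _ _).trans ((le_max_right _ _).trans hT))
      (hadm.mono ((le_max_right _ _).trans (le_max_right _ _))) hv (by linarith) τ (by linarith) (by linarith))
  refine shift_vol (δ := HH T c) hH0 h2 ((ENNReal.ofReal_le_ofReal h3).trans h4) ?_
  intro t ht1 ht2 ht3
  refine ⟨ht2, ht3, ?_⟩
  have h5 : c + √(V ^ 2) ≤ (zc (Ico (t + HH T c - HH T c) (t + HH T c + HH T c)) : ℝ) := ht1
  rw [add_sub_cancel_right, hsq] at h5
  have h6 : t + HH T c + HH T c = t + c * sp T := by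
    unfold HH sp
    field_simp
    ring
  rwa [h6] at h5

theorem mm_of (ht : ∀ δ : ℝ, 0 < δ → δ ≤ 1 / 32 → ToMeas δ) (hm : ∀ δ : ℝ, 0 < δ → δ ≤ 1 / 32 → Few δ) (hz : ZcMeas) :
    Mm := by
  intro ε hε
  set δ : ℝ := min (1 / 32) (ε / 600) with hδd
  have hδ : 0 < δ := lt_min (by norm_num) (by positivity)
  have hδ1 : δ ≤ 1 / 32 := min_le_left _ _
  have hδ2 : 600 * δ ≤ ε := by
    have := min_le_right (1 / 32) (ε / 600)
    rw [← hδd] at this
    linarith
  obtain ⟨c1, T1, ht⟩ := ht δ hδ hδ1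
  obtain ⟨c2, T2, hm⟩ := hm δ hδ hδ1
  have hl := Real.tendsto_log_atTop
  have hll : Tendsto (fun T : ℝ => Real.log (Real.log T)) atTop atTop := hl.comp hl
  obtain ⟨T3, hT3⟩ := eventually_atTop.mp ((numbers88 hε hδ hδ2).and ((hl.eventually_gt_atTop 0).and
    ((hll.eventually_gt_atTop 0).and (eventually_ge_atTop 1))))
  set B : ℝ := max 3 (max c1 c2) with hB
  have hB3 : 3 ≤ B := le_max_left _ _
  refine ⟨B, 1 / 64, max T3 (max T1 T2), by linarith, by norm_num,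
    fun T hT c V hc0 hV hV2 hc1 => ?_⟩
  obtain ⟨h1, hL, hLL, hT1⟩ := hT3 T ((le_max_left _ _).trans hT)
  obtain ⟨hV1, hadm⟩ := adm88 (c0 := B) (max_le hB3 le_rfl) hc0 hV hV2 hLL hc1
  have hsq : √(V ^ 2) = V := Real.sqrt_sq (by linarith)
  obtain ⟨h2, h3⟩ := h1 c (V ^ 2) (hadm.mono hB3)
  have hpi := Real.pi_pos
  have hpi3 := Real.pi_gt_three
  have hcp : 0 < c := by linarith
  have hvp : 0 < vv δ c (V ^ 2) := vv_pos hδ (hadm.mono hB3) (by norm_num)
  have hH0 : 0 ≤ HH T c := by unfold HH; positivity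
  have hv : |vv δ c (V ^ 2)| = vv δ c (V ^ 2) := abs_of_pos hvp
  set G : Set ℝ := {t : ℝ | (zc (Ico (t - HH T c) (t + HH T c)) : ℝ) ≤ c - √(V ^ 2) ∧
          ∃ ρ : ZS, t - HH T c - 16 / XX T c ≤ (ρ : ℂ).im ∧ (ρ : ℂ).im < t - HH T c} with hG
  have hGm : MeasurableSet G := by
    have e : G = {t : ℝ | (zc (Ico (t - HH T c) (t + HH T c)) : ℝ) ≤ c - √(V ^ 2)} ∩
        ⋃ ρ : ZS, {t : ℝ | t - HH T c - 16 / XX T c ≤ (ρ : ℂ).im ∧ (ρ : ℂ).im < t - HH T c} := by
      ext t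
      simp only [hG, mem_ofPred_eq, mem_inter_iff, mem_iUnion]
    rw [e]
    apply MeasurableSet.inter (measurableSet_le (hz _) measurable_const)
    apply MeasurableSet.iUnion
    intro ρ
    have h5 : Measurable fun t : ℝ => t - HH T c - 16 / XX T c := by fun_prop
    have h6 : Measurable fun t : ℝ => t - HH T c := by fun_prop
    exact (measurableSet_le h5 measurable_const).inter (measurableSet_lt measurable_const h6)
  have h4 := ht T c (V ^ 2) _ ((le_max_left _ _).trans ((le_max_right _ _).trans hT))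
    (hadm.mono ((le_max_left _ _).trans (le_max_right _ _))) hv G hGm (fun τ hτ1 hτ2 =>
    hm T c (V ^ 2) _ ((le_max_right _ _).trans ((le_max_right _ _).trans hT))
      (hadm.mono ((le_max_right _ _).trans (le_max_right _ _))) hv hvp τ (by linarith) (by linarith))
  refine shift_vol (δ := HH T c) hH0 h2 ((ENNReal.ofReal_le_ofReal h3).trans h4) ?_
  intro t ht1 ht2 ht3
  obtain ⟨h5, ρ, h7, h8⟩ := ht1
  have h6 : t + HH T c + HH T c = t + c * sp T := by
    unfold HH sp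
    field_simp
    ring
  rw [add_sub_cancel_right, h6, hsq] at h5
  rw [add_sub_cancel_right] at h7 h8
  refine ⟨ht2, ht3, h5, (ρ : ℂ).im, ⟨ρ, ?_, rfl⟩, ?_, h8⟩
  · exact isNontrivialZero_iff.mpr ρ.2
  · refine le_trans ?_ h7
    have h9 : 16 / XX T c ≤ 3 * c * sp T := by
      unfold XX sp
      rw [div_div_eq_mul_div, mul_div_assoc', div_le_div_iff_of_pos_right hL]
      nlinarith
    have hsp : 0 ≤ c * sp T := by unfold sp; positivity
    have h10 : 3 * c * sp T ≤ B * c * sp T := by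
      rw [mul_assoc, mul_assoc]
      exact mul_le_mul_of_nonneg_right hB3 hsp
    linarith

end Pool.Agent.Helper88.UW
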